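import Mathlib
import Pool.Agent.R904.RW.Lin
import Pool.Agent.R387.EM.Base

/-!
# Regulators of arithmetic schemes near the top degree: definitions
-/

set_option autoImplicit false

open Pool.Agent.R904.RW (Iso ExactSeq IsSum)
open Pool.Agent.R387.EM (Var VarClass)

namespace Pool.Agent.R387.NT

/-- A regulator: a homomorphism `r` from a rational vector space to a real vector space. -/
structure Reg where
  M : Type
  D : Type
  [gM : AddCommGroup M]
  [mM : Module ℚ M]
  [gD : AddCommGroup D]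
  [mD : Module ℝ D]
  r : M →+ D

attribute [instance] Reg.gM Reg.mM Reg.gD Reg.mD

/-- The regulator extends to an isomorphism `ℝ ⊗ M → D`. -/
def Reg.IsIso (P : Reg) : Prop := Iso P.r

/-- There is an exact sequence `0 → ℝ ⊗ M → D → ℝ → 0` whose first map extends the regulator. -/
def Reg.IsExact (P : Reg) : Prop := ExactSeq P.r

/-- The regulator `P` is the direct sum of `P₁` and the `P' a`. -/
def Reg.SumOf (P P₁ : Reg) {ι : Type} (P' : ι → Reg) : Prop := IsSum P.r P₁.r fun a => (P' a).r

variable {S : VarClass}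

/-- `X` is flat over `ℤ` (otherwise it is a smooth proper variety over a finite field). -/
def IsFlat (X : S.Obj) : Prop := AlgebraicGeometry.Flat X.V.str

/-- Regulators, products with projective spaces and blow-ups. -/
structure Data (S : VarClass) where
  /-- `reg X j i` is the regulator `H^{2q-1-i}(X, ℚ(q)) → H_D^{2q-1-i}(X_{ℚ/ℝ}, ℝ(q))` for
  `q = dim X + j` -/
  reg : S.Obj → ℕ → ℕ → Reg
  /-- `Spec ℤ` -/
  pt : S.Obj
  /-- `prod X m = ℙ^m × X` -/
  prod : S.Obj → ℕ → S.Obj
  /-- `Blow B X W c`: `B` is the blow-up of `X` along a closed subscheme isomorphic to `W`, of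
  codimension `c + 1` -/
  Blow : S.Obj → S.Obj → S.Obj → ℕ → Prop

/-- `P = ℙ^m × X`: the projective bundle formula
`H^p(P, q) = H^{p-2m}(X, q-m) ⊕ ⨁ H^{p-2k}(X, q-k)`, `0 ≤ k < m`. -/
structure IsProd (D : Data S) (m : ℕ) (P X : S.Obj) : Prop where
  dim : P.dim = X.dim + m
  flat : IsFlat X → IsFlat P
  coh : ∀ j i, (D.reg P j i).SumOf (D.reg X j i) fun k : Fin m => D.reg X (j + (k + 1)) i

/-- The blow-up formula `H^p(B, q) = H^p(X, q) ⊕ ⨁ H^{p-2a}(W, q-a)`, `0 < a ≤ c`. -/
structure IsBlowUp (D : Data S) (B X W : S.Obj) (c : ℕ) : Prop where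
  dim : B.dim = X.dim
  codim : X.dim = W.dim + c + 1
  flat : IsFlat X → IsFlat B
  coh : ∀ j i, (D.reg B j i).SumOf (D.reg X j i) fun a : Fin c => D.reg W (j + (a + 1)) i

/-- Q1 for `X` in the degree `2 d - 1 - i`, `d = dim X`: the regulator extends to an isomorphism for
`i ≥ 1`, and there is an exact sequence `0 → ℝ ⊗ M → D → ℝ → 0` for `i = 0`
(`X` is connected, `CH^0(X_ℚ)^*_ℝ = ℝ`). -/
def Q1At (D : Data S) (X : S.Obj) (i : ℕ) : Prop :=
  (1 ≤ i → (D.reg X 0 i).IsIso) ∧ (i = 0 → (D.reg X 0 0).IsExact)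

/-- The regulators of `X` in the weight `dim X + j` are isomorphisms in all degrees `p < 2 (dim X + j)`.
If `X` is not flat, this says that the motivic cohomology vanishes in these degrees. -/
def Weight (D : Data S) (X : S.Obj) (j : ℕ) : Prop := ∀ i, (D.reg X j i).IsIso

/-- The formal properties: projective bundles, blow-ups, embeddings in projective spaces of all
sufficiently large dimensions; the Deligne cohomology vanishes in degrees `> 2 dim X - 1`; Q1 and the
isomorphisms in the higher weights for `Spec ℤ` (Dirichlet, Borel). -/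
structure IsData (D : Data S) : Prop where
  pt_dim : D.pt.dim = 1
  pt_flat : IsFlat D.pt
  pt_q1 : ∀ i, Q1At D D.pt i
  pt_weight : ∀ j, 1 ≤ j → Weight D D.pt j
  prod : ∀ X m, IsProd D m (D.prod X m) X
  blowUp : ∀ {B X W : S.Obj} {c : ℕ}, D.Blow B X W c → IsBlowUp D B X W c
  embed : ∀ X : S.Obj, ∃ c₀ : ℕ, ∀ c ≥ c₀, ∃ B, D.Blow B (D.prod D.pt (X.dim + c)) X c
  top : ∀ (X : S.Obj) (j : ℕ), 1 ≤ j → Subsingleton (D.reg X j 0).D

/-- The schemes obtained from projective spaces over `ℤ` by finitely many blow-ups along schemes in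
`S`, flat or not flat over `ℤ`. -/
inductive Tower (D : Data S) : S.Obj → Prop
  | base (N : ℕ) : Tower D (D.prod D.pt N)
  | blowUp {B X W : S.Obj} {c : ℕ} : Tower D X → D.Blow B X W c → Tower D B

/-- The following are equivalent: Q1 for all flat `X` in the degrees `2 d - 1 - i`, `i ≤ φ(d)`,
`d = dim X`; Q1 for all flat `X`; Q1 for all flat `X`, and the isomorphisms in all weights `> dim X` for
all `X`, flat or not. -/
def AllFlat (D : Data S) (φ : ℕ → ℕ) : Prop :=
  [∀ X, IsFlat X → ∀ i ≤ φ X.dim, Q1At D X i,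
    ∀ X, IsFlat X → ∀ i, Q1At D X i,
    (∀ X, IsFlat X → ∀ i, Q1At D X i) ∧ ∀ X, ∀ j ≥ 1, Weight D X j].TFAE

/-- The following are equivalent: Q1 for all towers `B` in the degrees `2 d - 1 - i`, `i ≤ φ(d)`,
`d = dim B`; Q1 for all towers; the isomorphisms in the weight `dim X + 1` for all `X`, flat or not; the
isomorphisms in all weights `> dim X` for all `X`, flat or not. -/
def AllTowers (D : Data S) (φ : ℕ → ℕ) : Prop :=
  [∀ B, Tower D B → ∀ i ≤ φ B.dim, Q1At D B i,
    ∀ B, Tower D B → ∀ i, Q1At D B i,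
    ∀ X, Weight D X 1,
    ∀ X, ∀ j ≥ 1, Weight D X j].TFAE

end Pool.Agent.R387.NT
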