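import Mathlib
import Pool.Agent.R387.NT.Defs

/-!
# Regulators of arithmetic schemes near the top degree: proofs
-/

set_option autoImplicit false

open Pool.Agent.R904.RW (Iso ExactSeq IsSum)
open Pool.Agent.R387.EM (Var VarClass)

namespace Pool.Agent.R387.NT

variable {S : VarClass} {D : Data S}

theorem q1_sum (h : IsData D) {P X : S.Obj} {m : ℕ} {W : S.Obj} (i : ℕ)
    (hs : (D.reg P 0 i).SumOf (D.reg X 0 i) fun k : Fin m => D.reg W (0 + (k + 1)) i) :
    Q1At D P i ↔ Q1At D X i ∧ ∀ k : Fin m, (D.reg W (k + 1) i).IsIso := by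
  have h0 : ∀ k : Fin m, 0 + ((k : ℕ) + 1) = k + 1 := fun k => by omega
  simp_rw [h0] at hs
  rcases Nat.eq_zero_or_pos i with rfl | hi
  · have h1 := IsSum.exact_iff hs fun k => h.top W (k + 1) (by omega)
    constructor
    · intro H
      have h2 := h1.1 (H.2 rfl)
      exact ⟨⟨fun h => absurd h (by norm_num), fun _ => h2.1⟩, h2.2⟩
    · rintro ⟨H1, H2⟩
      exact ⟨fun h => absurd h (by norm_num), fun _ => h1.2 ⟨H1.2 rfl, H2⟩⟩
  · have h1 := IsSum.iso_iff hs
    constructor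
    · intro H
      have h2 := h1.1 (H.1 hi)
      exact ⟨⟨fun _ => h2.1, fun h => absurd h (by omega)⟩, h2.2⟩
    · rintro ⟨H1, H2⟩
      exact ⟨fun _ => h1.2 ⟨H1.1 hi, H2⟩, fun h => absurd h (by omega)⟩

theorem exists_large {φ : ℕ → ℕ} (hφ : ¬ BddAbove (Set.range φ)) (K n : ℕ) :
    ∃ e, n ≤ e ∧ K ≤ φ e := by
  by_contra hc
  push Not at hc
  apply hφ
  refine ⟨K + ∑ i ∈ Finset.range n, φ i, ?_⟩
  rintro _ ⟨e, rfl⟩
  rcases le_or_gt n e with he | he
  · have := hc e he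
    omega
  · have := Finset.single_le_sum (f := φ) (fun _ _ => Nat.zero_le _) (Finset.mem_range.2 he)
    omega

theorem tower_flat (h : IsData D) {B : S.Obj} (hB : Tower D B) : IsFlat B := by
  induction hB with
  | base N => exact (h.prod D.pt N).flat h.pt_flat
  | blowUp hX hb ih => exact (h.blowUp hb).flat ih

/-- blow-ups of projective spaces of all large dimensions along `X` -/
theorem high_of_tower (h : IsData D) (X : S.Obj) {j : ℕ} (hj : 1 ≤ j) (i : ℕ) :
    ∃ e₀ : ℕ, ∀ e ≥ e₀, ∃ B, Tower D B ∧ B.dim = e ∧ (Q1At D B i → (D.reg X j i).IsIso) := by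
  obtain ⟨c₀, hc₀⟩ := h.embed X
  refine ⟨X.dim + (c₀ + j) + 1, fun e he => ?_⟩
  obtain ⟨B, hB⟩ := hc₀ (e - X.dim - 1) (by omega)
  have h1 := h.blowUp hB
  have h2 : B.dim = e := by
    rw [h1.dim, h1.codim]
    omega
  refine ⟨B, Tower.blowUp (Tower.base _) hB, h2, fun h3 => ?_⟩
  have h4 := ((q1_sum h i (h1.coh 0 i)).1 h3).2 ⟨j - 1, by omega⟩
  change (D.reg X (j - 1 + 1) i).IsIso at h4
  rwa [show j - 1 + 1 = j by omega] at h4

theorem weight_of_towers (h : IsData D) {φ : ℕ → ℕ} (hφ : ¬ BddAbove (Set.range φ))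
    (H : ∀ B, Tower D B → ∀ i ≤ φ B.dim, Q1At D B i) (X : S.Obj) (j : ℕ) (hj : 1 ≤ j) :
    Weight D X j := by
  intro i
  obtain ⟨e₀, he⟩ := high_of_tower h X hj i
  obtain ⟨e, he1, he2⟩ := exists_large hφ i e₀
  obtain ⟨B, hB, hBe, h1⟩ := he e he1
  exact h1 (H B hB i (by rw [hBe]; exact he2))

theorem tower_of_weight (h : IsData D) (H : ∀ X, ∀ j ≥ 1, Weight D X j) {B : S.Obj}
    (hB : Tower D B) (i : ℕ) : Q1At D B i := by
  induction hB with
  | base N =>
    exact (q1_sum h i ((h.prod D.pt N).coh 0 i)).2 ⟨h.pt_q1 i, fun k => h.pt_weight _ (by omega) i⟩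
  | blowUp hX hb ih =>
    exact (q1_sum h i ((h.blowUp hb).coh 0 i)).2 ⟨ih, fun k => H _ _ (by omega) i⟩

theorem weight_of_one (h : IsData D) (H : ∀ X, Weight D X 1) (X : S.Obj) (j : ℕ) (hj : 1 ≤ j) :
    Weight D X j := by
  intro i
  rcases Nat.lt_or_ge 1 j with hj1 | hj1
  · have h1 := IsSum.iso_iff ((h.prod X (j - 1)).coh 1 i)
    have h2 := (h1.1 (H (D.prod X (j - 1)) i)).2 ⟨j - 2, by omega⟩
    change (D.reg X (1 + (j - 2 + 1)) i).IsIso at h2
    rwa [show 1 + (j - 2 + 1) = j by omega] at h2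
  · rw [show j = 1 by omega]
    exact H X i

theorem allTowers (h : IsData D) {φ : ℕ → ℕ} (hφ : ¬ BddAbove (Set.range φ)) : AllTowers D φ := by
  unfold AllTowers
  tfae_have 2 → 1 := fun H B hB i _ => H B hB i
  tfae_have 1 → 4 := fun H X j hj => weight_of_towers h hφ H X j hj
  tfae_have 4 → 3 := fun H X => H X 1 le_rfl
  tfae_have 3 → 4 := fun H X j hj => weight_of_one h H X j hj
  tfae_have 4 → 2 := fun H B hB i => tower_of_weight h H hB i
  tfae_finish

theorem allFlat (h : IsData D) {φ : ℕ → ℕ} (hφ : ¬ BddAbove (Set.range φ)) : AllFlat D φ := by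
  unfold AllFlat
  tfae_have 3 → 2 := fun H => H.1
  tfae_have 2 → 1 := fun H X hX i _ => H X hX i
  tfae_have 1 → 3 := by
    intro H
    refine ⟨fun X hX i => ?_, fun X j hj => weight_of_towers h hφ
      (fun B hB i hi => H B (tower_flat h hB) i hi) X j hj⟩
    obtain ⟨e, he1, he2⟩ := exists_large hφ i X.dim
    have h1 := h.prod X (e - X.dim)
    have h2 : (D.prod X (e - X.dim)).dim = e := by
      rw [h1.dim]
      omega
    exact ((q1_sum h i (h1.coh 0 i)).1 (H _ (h1.flat hX) i (by rw [h2]; exact he2))).1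
  tfae_finish

end Pool.Agent.R387.NT
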